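import Pool.Agent.W785.FD.Stms

/-! MP_024e69_an: capacity of a superlevel set. -/

set_option autoImplicit false

open MeasureTheory Metric Set Filter
open scoped ENNReal NNReal Topology

namespace Pool.Agent.W377.FD.Cut

open Pool.Agent.W785.FD

universe u

section basic
variable {X : Type u} [MetricSpace X]

theorem int_const_mul (c : Crv X) (k : ℝ≥0∞) (hk : k ≠ ∞) (g : X → ℝ≥0∞) :
    c.int (fun z => k * g z) = k * c.int g := by
  unfold Crv.int
  exact lintegral_const_mul' _ _ hk

theorem int_const (c : Crv X) (k : ℝ≥0∞) : c.int (fun _ => k) = k * ENNReal.ofReal c.l := by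
  unfold Crv.int
  rw [lintegral_const, Measure.restrict_apply_univ, Real.volume_Icc, sub_zero]

theorem dist_ends (c : Crv X) : dist (c.γ 0) (c.γ c.l) ≤ c.l := by
  have h := c.lip.dist_le_mul 0 c.l
  rw [NNReal.coe_one, one_mul, Real.dist_eq, zero_sub, abs_neg, abs_of_nonneg c.nonneg] at h
  exact h

theorem crv_lip (f : X → ℝ) (k : ℝ) (hk : 0 ≤ k) (hf : ∀ a b, |f a - f b| ≤ k * dist a b) (c : Crv X) :
    CrvIneq f (fun _ => ENNReal.ofReal k) c := by
  unfold CrvIneq
  rw [int_const, ← ENNReal.ofReal_mul hk]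
  exact ENNReal.ofReal_le_ofReal ((hf _ _).trans (mul_le_mul_of_nonneg_left (dist_ends c) hk))

theorem clamp_sub (a b : ℝ) : |max 0 (min 1 a) - max 0 (min 1 b)| ≤ |a - b| := by
  have h1 : |max 0 (min 1 a) - max 0 (min 1 b)| ≤ |min 1 a - min 1 b| := by
    have := abs_max_sub_max_le_max 0 (min 1 a) 0 (min 1 b)
    simpa using this
  have h2 : |min 1 a - min 1 b| ≤ |a - b| := by
    have := abs_min_sub_min_le_max 1 a 1 b
    simpa using this
  exact h1.trans h2

theorem crv_min (f h : X → ℝ) (G H : X → ℝ≥0∞) (hG : Measurable[borel X] G) (c : Crv X)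
    (h1 : CrvIneq f G c) (h2 : CrvIneq h H c) :
    CrvIneq (fun y => min (f y) (h y)) (fun y => G y + H y) c := by
  unfold CrvIneq at *
  have hm : Measurable (fun t => G (c.γ t)) := by
    borelize X
    exact hG.comp c.lip.continuous.measurable
  have hint : c.int (fun y => G y + H y) = c.int G + c.int H := by
    unfold Crv.int
    exact lintegral_add_left hm _
  rw [hint]
  calc ENNReal.ofReal |min (f (c.γ 0)) (h (c.γ 0)) - min (f (c.γ c.l)) (h (c.γ c.l))|
      ≤ ENNReal.ofReal (|f (c.γ 0) - f (c.γ c.l)| + |h (c.γ 0) - h (c.γ c.l)|) := by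
        apply ENNReal.ofReal_le_ofReal
        refine (abs_min_sub_min_le_max _ _ _ _).trans (max_le ?_ ?_)
        · linarith [abs_nonneg (h (c.γ 0) - h (c.γ c.l))]
        · linarith [abs_nonneg (f (c.γ 0) - f (c.γ c.l))]
    _ ≤ ENNReal.ofReal |f (c.γ 0) - f (c.γ c.l)| + ENNReal.ofReal |h (c.γ 0) - h (c.γ c.l)| :=
        ENNReal.ofReal_add_le
    _ ≤ _ := add_le_add h1 h2

end basic

variable {X : Type u} [MetricSpace X]

/-- the cutoff function -/
noncomputable def eta (x : X) (r : ℝ) (y : X) : ℝ := max 0 (min 1 (2 - 2 * dist y x / r))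

/-- truncation -/
noncomputable def psi (w : X → ℝ) (y : X) : ℝ := max 0 (min 1 (4 * w y - 1))

theorem eta_lip (x : X) (r : ℝ) (hr : 0 < r) (a b : X) :
    |eta x r a - eta x r b| ≤ (2 / r) * dist a b := by
  refine (clamp_sub _ _).trans ?_
  have h1 : 2 - 2 * dist a x / r - (2 - 2 * dist b x / r) = (2 / r) * (dist b x - dist a x) := by ring
  rw [h1, abs_mul, abs_of_pos (by positivity)]
  apply mul_le_mul_of_nonneg_left _ (by positivity)
  rw [dist_comm a b]
  exact abs_dist_sub_le b a x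

theorem eta_out (x : X) (r : ℝ) (hr : 0 < r) (y : X) (hy : y ∉ ball x r) : eta x r y = 0 := by
  have h1 : r ≤ dist y x := not_lt.1 hy
  have h2 : 1 ≤ dist y x / r := (one_le_div hr).2 h1
  unfold eta
  have h3 : 2 - 2 * dist y x / r ≤ 0 := by
    have : 2 * dist y x / r = 2 * (dist y x / r) := by ring
    rw [this]; linarith
  exact max_eq_left ((min_le_right _ _).trans h3)

theorem eta_in (x : X) (r : ℝ) (hr : 0 < r) (y : X) (hy : y ∈ ball x (r / 2)) : eta x r y = 1 := by
  have h1 : dist y x < r / 2 := hy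
  have h2 : dist y x / r ≤ 1 / 2 := by
    rw [div_le_iff₀ hr]; linarith
  unfold eta
  have h3 : 1 ≤ 2 - 2 * dist y x / r := by
    have : 2 * dist y x / r = 2 * (dist y x / r) := by ring
    rw [this]; linarith
  rw [min_eq_left h3]; norm_num

variable [MeasurableSpace X] [BorelSpace X]

theorem ug_eta (h3 : S_LOCS X) (x : X) (r : ℝ) (hr : 0 < r) :
    UG (eta x r) ((ball x r).indicator (fun _ => ENNReal.ofReal (2 / r))) := by
  apply h3 (eta x r) (fun _ => ENNReal.ofReal (2 / r))
  · exact ⟨measurable_const, fun c => crv_lip _ _ (by positivity) (eta_lip x r hr) c⟩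
  · intro c
    rw [int_const]
    exact ENNReal.mul_lt_top ENNReal.ofReal_lt_top ENNReal.ofReal_lt_top
  · exact isOpen_ball.measurableSet
  · intro y hy
    by_contra hn
    exact hy (eta_out x r hr y hn)

theorem wu_f (μ : Measure X) (p : ℝ) (h3 : S_LOCS X) (w : X → ℝ) (g : X → ℝ≥0∞) (hg : Measurable g)
    (K1 : ℝ) (hw : WU μ p w (fun z => ENNReal.ofReal K1 * g z)) (x : X) (r : ℝ) (hr : 0 < r) :
    WU μ p (fun y => min (psi w y) (eta x r y))
      (fun y => 4 * (ENNReal.ofReal K1 * g y) + (ball x r).indicator (fun _ => ENNReal.ofReal (2 / r)) y) := by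
  obtain ⟨hm, h, hh, hhf, hc⟩ := hw
  have hm4 : Measurable (fun y => 4 * (ENNReal.ofReal K1 * g y)) := by fun_prop
  refine ⟨hm4.add ((measurable_const).indicator isOpen_ball.measurableSet), h, hh, hhf, fun c => ?_⟩
  rcases hc c with h1 | h1
  · left
    refine crv_min _ _ _ _ (by rw [← BorelSpace.measurable_eq (α := X)]; exact hm4) c ?_ ((ug_eta h3 x r hr).2 c)
    unfold CrvIneq at *
    rw [int_const_mul c 4 (by norm_num)]
    have h2 : |psi w (c.γ 0) - psi w (c.γ c.l)| ≤ 4 * |w (c.γ 0) - w (c.γ c.l)| := by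
      refine (clamp_sub _ _).trans ?_
      rw [show 4 * w (c.γ 0) - 1 - (4 * w (c.γ c.l) - 1) = 4 * (w (c.γ 0) - w (c.γ c.l)) by ring, abs_mul,
        abs_of_pos (by norm_num : (0 : ℝ) < 4)]
    calc ENNReal.ofReal |psi w (c.γ 0) - psi w (c.γ c.l)|
        ≤ ENNReal.ofReal (4 * |w (c.γ 0) - w (c.γ c.l)|) := ENNReal.ofReal_le_ofReal h2
      _ = 4 * ENNReal.ofReal |w (c.γ 0) - w (c.γ c.l)| := by
          rw [ENNReal.ofReal_mul (by norm_num)]; norm_num
      _ ≤ _ := mul_le_mul_right h1 4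
  · right; exact h1

end Pool.Agent.W377.FD.Cut
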