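import Pool.Agent.W377.FD.Cut

/-! MP_024e69_an: capacity of a superlevel set (main theorem). -/

set_option autoImplicit false

open MeasureTheory Metric Set Filter
open scoped ENNReal NNReal Topology

namespace Pool.Agent.W377.FD.CutMain
open Pool.Agent.W377.FD.Cut

open Pool.Agent.W785.FD

universe u
variable {X : Type u} [MetricSpace X] [ProperSpace X] [MeasurableSpace X] [BorelSpace X]

theorem li_bdd (μ : Measure X) (D : ℝ) (hD : Dbl μ D) (w : X → ℝ) (hm : Measurable w)
    (h0 : ∀ y, 0 ≤ w y) (h1 : ∀ y, w y ≤ 1) : LI μ w := by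
  intro x r
  haveI : IsFiniteMeasure (μ.restrict (ball x r)) :=
    ⟨by rw [Measure.restrict_apply_univ]; exact hD.fin x r⟩
  apply Integrable.of_bound (C := 1)
  · exact hm.aestronglyMeasurable
  · exact Eventually.of_forall (fun y => by rw [Real.norm_eq_abs, abs_of_nonneg (h0 y)]; exact h1 y)

theorem main {X : Type*} [MetricSpace X] [ProperSpace X] [MeasurableSpace X] [BorelSpace X]
    (μ : Measure X) (p D : ℝ) (hp : 1 < p) (hD : Dbl μ D) (h1 : S_PPP μ p) (h2 : S_LOC μ p)
    (h3 : S_LOCS X) (h4 : S_WU μ p) : S_CUT μ p := by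
  intro K Λ K1 hK hΛ hK1
  obtain ⟨K', hK', hP⟩ := h1 K Λ hK hΛ
  have hp0 : 0 < p := by linarith
  refine ⟨2 ^ (p - 1) * ((4 * K1) ^ p + 16 ^ p * K'), by positivity, ?_⟩
  intro w g hwm hw0 hw1 hgm hgf hWU hPP x r hr hmean
  have hLI := li_bdd μ D hD w hwm hw0 hw1
  have hPPP := hP w g hLI hgm hPP x r hr
  set f : X → ℝ := fun y => min (psi w y) (eta x r y) with hf
  set G : X → ℝ≥0∞ := fun y => 4 * (ENNReal.ofReal K1 * g y) +
    (ball x r).indicator (fun _ => ENNReal.ofReal (2 / r)) y with hG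
  have hWUf : WU μ p f G := wu_f μ p h3 w g hgm K1 hWU x r hr
  have hGm : Measurable G := hWUf.1
  have hbm : MeasurableSet (ball x r) := isOpen_ball.measurableSet
  -- pointwise bound of `G^p`
  have hGp : ∀ y, G y ^ p ≤ ENNReal.ofReal (2 ^ (p - 1)) * (ENNReal.ofReal ((4 * K1) ^ p) * g y ^ p +
      (ball x r).indicator (fun _ => ENNReal.ofReal ((2 / r) ^ p)) y) := by
    intro y
    have ha := ENNReal.rpow_add_le_mul_rpow_add_rpow (4 * (ENNReal.ofReal K1 * g y))
      ((ball x r).indicator (fun _ => ENNReal.ofReal (2 / r)) y) hp.le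
    refine ha.trans ?_
    have e1 : (2 : ℝ≥0∞) ^ (p - 1) = ENNReal.ofReal (2 ^ (p - 1)) := by
      rw [← ENNReal.ofReal_rpow_of_pos (by norm_num)]; norm_num
    have e2 : (4 * (ENNReal.ofReal K1 * g y)) ^ p = ENNReal.ofReal ((4 * K1) ^ p) * g y ^ p := by
      rw [← mul_assoc, ENNReal.mul_rpow_of_nonneg _ _ hp0.le,
        ← ENNReal.ofReal_rpow_of_nonneg (by positivity) hp0.le, ENNReal.ofReal_mul (by norm_num)]
      norm_num
    have e3 : ((ball x r).indicator (fun _ => ENNReal.ofReal (2 / r)) y) ^ p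
        = (ball x r).indicator (fun _ => ENNReal.ofReal ((2 / r) ^ p)) y := by
      by_cases hy : y ∈ ball x r
      · rw [indicator_of_mem hy, indicator_of_mem hy, ENNReal.ofReal_rpow_of_nonneg (by positivity) hp0.le]
      · rw [indicator_of_notMem hy, indicator_of_notMem hy, ENNReal.zero_rpow_of_pos hp0]
    rw [e1, e2, e3]
  have hgpm : Measurable (fun y => g y ^ p) := hgm.pow_const p
  have hGf : ∫⁻ y, G y ^ p ∂μ < ∞ := by
    refine (lintegral_mono hGp).trans_lt ?_
    rw [lintegral_const_mul' _ _ ENNReal.ofReal_ne_top, lintegral_add_left (hgpm.const_mul _),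
      lintegral_const_mul' _ _ ENNReal.ofReal_ne_top, lintegral_indicator hbm, lintegral_const,
      Measure.restrict_apply_univ]
    exact ENNReal.mul_lt_top ENNReal.ofReal_lt_top (ENNReal.add_lt_top.2
      ⟨ENNReal.mul_lt_top ENNReal.ofReal_lt_top hgf, ENNReal.mul_lt_top ENNReal.ofReal_lt_top (hD.fin x r)⟩)
  set S : Set X := {y | 1 / 4 < w y} ∩ ball x r with hS
  have hSm : MeasurableSet S := (measurableSet_lt measurable_const hwm).inter hbm
  have hpsi0 : ∀ y, 0 ≤ psi w y := fun y => le_max_left _ _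
  have heta0 : ∀ y, 0 ≤ eta x r y := fun y => le_max_left _ _
  have heta1 : ∀ y, eta x r y ≤ 1 := fun y => max_le zero_le_one (min_le_left _ _)
  have hf0 : ∀ y, y ∉ ball x r → f y = 0 := by
    intro y hy
    simp only [hf]
    rw [eta_out x r hr y hy]
    exact min_eq_right (hpsi0 y)
  have hfS : {y | f y ≠ 0} \ S = ∅ := by
    rw [Set.sdiff_eq_empty]
    intro y hy
    have hyb : y ∈ ball x r := by
      by_contra hn; exact hy (hf0 y hn)
    refine ⟨?_, hyb⟩
    by_contra hn
    apply hy
    have hn' : w y ≤ 1 / 4 := not_lt.1 hn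
    have : psi w y = 0 := by
      unfold psi
      exact max_eq_left ((min_le_right _ _).trans (by linarith))
    simp only [hf]
    rw [this]
    exact min_eq_left (heta0 y)
  have hWUS : WU μ p f (S.indicator G) := h2 f G hWUf hGf S hSm (by rw [hfS]; exact measure_empty)
  -- the energy
  have hEn : En μ p f ≤ ∫⁻ y in S, G y ^ p ∂μ := by
    unfold En
    refine (iInf₂_le (S.indicator G) ((h4 f _).2 hWUS)).trans (le_of_eq ?_)
    rw [← lintegral_indicator hSm]
    apply lintegral_congr
    intro y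
    by_cases hy : y ∈ S
    · rw [indicator_of_mem hy, indicator_of_mem hy]
    · rw [indicator_of_notMem hy, indicator_of_notMem hy, ENNReal.zero_rpow_of_pos hp0]
  -- the measure of `S`
  have hSle : μ S ≤ ENNReal.ofReal (8 ^ p) * (ENNReal.ofReal (K' * r ^ p) *
      ∫⁻ y in ball x ((1 + 2 * Λ) * r), g y ^ p ∂μ) := by
    calc μ S = ∫⁻ y in S, 1 ∂μ := by rw [lintegral_const, Measure.restrict_apply_univ, one_mul]
      _ ≤ ∫⁻ y in S, ENNReal.ofReal (8 ^ p) * (ENNReal.ofReal |w y - mean μ w x r|) ^ p ∂μ := by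
          apply setLIntegral_mono' hSm
          intro y hy
          have hy1 : 1 / 4 < w y := hy.1
          have hy2 : 1 ≤ 8 * |w y - mean μ w x r| := by
            have := le_abs_self (w y - mean μ w x r)
            linarith
          rw [← ENNReal.ofReal_rpow_of_nonneg (by norm_num) hp0.le, ← ENNReal.mul_rpow_of_nonneg _ _ hp0.le,
            ← ENNReal.ofReal_mul (by norm_num)]
          refine le_trans (le_of_eq (ENNReal.one_rpow p).symm) ?_
          apply ENNReal.rpow_le_rpow _ hp0.le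
          rw [← ENNReal.ofReal_one]
          exact ENNReal.ofReal_le_ofReal hy2
      _ = ENNReal.ofReal (8 ^ p) * ∫⁻ y in S, (ENNReal.ofReal |w y - mean μ w x r|) ^ p ∂μ :=
          lintegral_const_mul' _ _ ENNReal.ofReal_ne_top
      _ ≤ ENNReal.ofReal (8 ^ p) * ∫⁻ y in ball x r, (ENNReal.ofReal |w y - mean μ w x r|) ^ p ∂μ := by
          gcongr
          exact inter_subset_right
      _ ≤ _ := by gcongr
  have hball : ball x r ⊆ ball x ((1 + 2 * Λ) * r) := by
    apply ball_subset_ball
    nlinarith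
  set I : ℝ≥0∞ := ∫⁻ y in ball x ((1 + 2 * Λ) * r), g y ^ p ∂μ with hI
  have hEn2 : En μ p f ≤ ENNReal.ofReal (2 ^ (p - 1) * ((4 * K1) ^ p + 16 ^ p * K')) * I := by
    calc En μ p f ≤ ∫⁻ y in S, G y ^ p ∂μ := hEn
      _ ≤ ∫⁻ y in S, ENNReal.ofReal (2 ^ (p - 1)) * (ENNReal.ofReal ((4 * K1) ^ p) * g y ^ p +
            (ball x r).indicator (fun _ => ENNReal.ofReal ((2 / r) ^ p)) y) ∂μ := lintegral_mono hGp
      _ = ENNReal.ofReal (2 ^ (p - 1)) * (ENNReal.ofReal ((4 * K1) ^ p) * ∫⁻ y in S, g y ^ p ∂μ +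
            ∫⁻ y in S, (ball x r).indicator (fun _ => ENNReal.ofReal ((2 / r) ^ p)) y ∂μ) := by
          rw [lintegral_const_mul' _ _ ENNReal.ofReal_ne_top, lintegral_add_left (hgpm.const_mul _),
            lintegral_const_mul' _ _ ENNReal.ofReal_ne_top]
      _ ≤ ENNReal.ofReal (2 ^ (p - 1)) * (ENNReal.ofReal ((4 * K1) ^ p) * I +
            ENNReal.ofReal ((2 / r) ^ p) * μ S) := by
          gcongr ENNReal.ofReal (2 ^ (p - 1)) * (ENNReal.ofReal ((4 * K1) ^ p) * ?_ + ?_)
          · exact lintegral_mono_set (inter_subset_right.trans hball)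
          · calc ∫⁻ y in S, (ball x r).indicator (fun _ => ENNReal.ofReal ((2 / r) ^ p)) y ∂μ
                ≤ ∫⁻ y in S, ENNReal.ofReal ((2 / r) ^ p) ∂μ :=
                  lintegral_mono (fun y => indicator_le_self' (fun _ _ => zero_le) y)
              _ = _ := by rw [lintegral_const, Measure.restrict_apply_univ]
      _ ≤ ENNReal.ofReal (2 ^ (p - 1)) * (ENNReal.ofReal ((4 * K1) ^ p) * I +
            ENNReal.ofReal ((2 / r) ^ p) * (ENNReal.ofReal (8 ^ p) * (ENNReal.ofReal (K' * r ^ p) * I))) := by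
          gcongr
      _ = _ := by
          have e1 : ENNReal.ofReal ((2 / r) ^ p) * (ENNReal.ofReal (8 ^ p) * (ENNReal.ofReal (K' * r ^ p) * I))
              = ENNReal.ofReal (16 ^ p * K') * I := by
            rw [← mul_assoc, ← mul_assoc, ← ENNReal.ofReal_mul (by positivity),
              ← ENNReal.ofReal_mul (by positivity)]
            congr 2
            rw [Real.div_rpow (by norm_num) hr.le, show (16 : ℝ) = 2 * 8 by norm_num,
              Real.mul_rpow (by norm_num) (by norm_num)]
            have : r ^ p ≠ 0 := (Real.rpow_pos_of_pos hr p).ne'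
            field_simp
          have hnn : (0 : ℝ) ≤ (4 * K1) ^ p := by positivity
          have hnn2 : (0 : ℝ) ≤ 16 ^ p * K' := by positivity
          rw [e1, ← add_mul, ← ENNReal.ofReal_add hnn hnn2, ← mul_assoc, ← ENNReal.ofReal_mul (by positivity)]
  -- admissibility
  refine le_trans ?_ hEn2
  have hfm : Measurable f := by
    have hpsim : Measurable (psi w) := by unfold psi; fun_prop
    have hetam : Measurable (eta x r) := by
      have : Continuous (eta x r) := by unfold eta; fun_prop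
      exact this.measurable
    exact hpsim.min hetam
  have hfle : ∀ y, |f y| ≤ 1 := by
    intro y
    have h0 : 0 ≤ f y := le_min (hpsi0 y) (heta0 y)
    rw [abs_of_nonneg h0]
    exact (min_le_right _ _).trans (heta1 y)
  have hfint : ∫⁻ y, (ENNReal.ofReal |f y|) ^ p ∂μ < ∞ := by
    calc ∫⁻ y, (ENNReal.ofReal |f y|) ^ p ∂μ ≤ ∫⁻ y, (ball x r).indicator (fun _ => 1) y ∂μ := by
          apply lintegral_mono
          intro y
          dsimp only
          by_cases hy : y ∈ ball x r
          · rw [indicator_of_mem hy]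
            refine le_trans (ENNReal.rpow_le_rpow (ENNReal.ofReal_le_ofReal (hfle y)) hp0.le) ?_
            rw [ENNReal.ofReal_one, ENNReal.one_rpow]
          · rw [indicator_of_notMem hy, hf0 y hy, abs_zero, ENNReal.ofReal_zero, ENNReal.zero_rpow_of_pos hp0]
      _ = μ (ball x r) := by rw [lintegral_indicator hbm, lintegral_const, Measure.restrict_apply_univ, one_mul]
      _ < ∞ := hD.fin x r
  have hfA : ∀ y ∈ {y | 1 / 2 ≤ w y} ∩ ball x (r / 2), 1 ≤ f y := by
    rintro y ⟨hy1, hy2⟩
    have hy1' : 1 / 2 ≤ w y := hy1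
    refine le_min ?_ (le_of_eq (eta_in x r hr y hy2).symm)
    unfold psi
    rw [min_eq_left (by linarith)]
    exact le_max_right _ _
  unfold capB
  exact (iInf₂_le f hfm.aemeasurable).trans ((iInf₂_le hfint hfA).trans (iInf_le _ hf0))

end Pool.Agent.W377.FD.CutMain
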